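import Pool.Agent.L7h13.WL.Map

/-!
# Barriers of zeros and corridors
-/

set_option autoImplicit false

open Complex Set Metric Polynomial

namespace Pool.Agent.L7h13.WL

open Pool.Agent.L7h13.SP H370

/-- at most `n` zeros in the box `Re z ≥ x`, `|Im z - T| ≤ η` -/
def FewB (f : ℂ → ℂ) (x T η n : ℝ) : Prop := ∀ S : Finset ℂ,
  (∀ z ∈ S, x ≤ z.re ∧ |z.im - T| ≤ η) → ∑ z ∈ S, (mult f z : ℝ) ≤ n

lemma FewB.mono {f : ℂ → ℂ} {x x' T η n n' : ℝ} (h : FewB f x T η n) (hx : x ≤ x') (hn : n ≤ n') :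
    FewB f x' T η n' := fun S hS => (h S fun z hz => ⟨hx.trans (hS z hz).1, (hS z hz).2⟩).trans hn

lemma fr_crude (P : ℂ[X]) (N : ℕ) (b : ℕ → ℂ) : ∃ T₀ : ℝ, 1 ≤ T₀ ∧ ∀ s : ℂ, 0 ≤ s.re → T₀ ≤ s.im →
    ‖Fr P N b s‖ ≤ s.im ^ (6:ℝ) := by
  obtain ⟨T₀, h1, h⟩ := fr_up P N b (σ := -(1 / 4)) (m := 5) (exu_five (by norm_num)) (by norm_num)
    (by norm_num) (by norm_num) (ρ := 1 / 4) (by norm_num) (ε := 1) one_pos
  refine ⟨T₀, h1, fun s h2 h3 => ?_⟩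
  have := h s (by linarith) h3
  rwa [show (5:ℝ) + 1 = 6 by norm_num] at this

/-- few zeros in a thin corridor -/
lemma fr_corridor {P : ℂ[X]} (hP : P ≠ 0) (N : ℕ) (b : ℕ → ℂ) {σ₁ σ η κ : ℝ} (h0 : 0 ≤ σ₁) (h2 : σ₁ ≤ 2)
    (hσ : σ₁ < σ) (hη : 0 < η) (hκ : 0 < κ) : ∃ θ : ℝ, 0 < θ ∧ ∃ T₀ : ℝ, 1 ≤ T₀ ∧ ∀ T : ℝ, T₀ ≤ T →
      FewB (Fr P N b) σ₁ T η (θ * Real.log T) → ∀ x : ℝ, σ ≤ x → ‖Fr P N b ⟨x, T⟩‖ ≤ T ^ κ := by
  obtain ⟨n₀, c, X, hn0, hc0, hX4, hlow'⟩ := rlow hP N b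
  have hlow : ∀ s : ℂ, X ≤ s.re → c * (n₀ : ℝ) ^ (-s.re) ≤ ‖Fr P N b s‖ := hlow'
  have hn0' : (0:ℝ) < n₀ := by exact_mod_cast (by omega : 0 < n₀)
  obtain ⟨C, hC1, hfar⟩ := fr_far P N b
  set B : ℝ := C + 1 / (c * (n₀ : ℝ) ^ (-X)) with hB
  have hcX : 0 < c * (n₀ : ℝ) ^ (-X) := by positivity
  have hB1 : C ≤ B := by
    have : 0 ≤ 1 / (c * (n₀ : ℝ) ^ (-X)) := by positivity
    linarith
  set σ' : ℝ := min σ 3 with hσ'
  have s1 : σ' ≤ σ := min_le_left _ _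
  have s2 : σ' ≤ 3 := min_le_right _ _
  have s3 : σ₁ < σ' := lt_min hσ (by linarith)
  obtain ⟨θ, hθ, L₀, hBL⟩ := corridor_abs (X := X) (l₁ := X - σ₁) (l := X - σ') (η := η) (A := 7) (B := B)
    (ε := κ) (by linarith) (by linarith) hη (by norm_num) (by linarith) hκ
  obtain ⟨T₁, hT1, hG⟩ := fr_crude P N b
  obtain ⟨T₄, hT41, hT4⟩ := absorb (2 ^ (6 : ℝ)) (ε := 1) one_pos
  obtain ⟨T₅, hT51, hT5⟩ := absorb C hκ
  have pL := Real.exp_pos |L₀|
  refine ⟨θ, hθ, T₁ + T₄ + T₅ + Real.exp |L₀| + η + 5, by linarith, fun T hT hfew x hx => ?_⟩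
  have hT0 : 0 < T := by linarith
  have hl1 : 1 ≤ Real.log T := by
    rw [Real.le_log_iff_exp_le hT0]
    have := Real.exp_one_lt_d9
    linarith
  have hL0 : L₀ ≤ Real.log T := (le_abs_self L₀).trans
    ((Real.le_log_iff_exp_le hT0).2 (by linarith))
  set L := Real.log T with hL
  have hexp : ∀ p : ℝ, Real.exp (p * L) = T ^ p := fun p => by
    rw [Real.rpow_def_of_pos hT0, mul_comm]
  rcases le_or_gt x X with hxX | hxX
  · rw [← hexp]
    refine hBL L hL0 (by linarith) (Fr P N b) T ?_ ?_ ?_ ?_ ?_ x (by linarith) hxX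
    · intro z hz1 hz2
      have := abs_le.1 hz2
      exact fr_an P N b (by linarith)
    · intro z hz1 hz2
      have g2 := abs_le.1 hz2
      have g5 := hG z (by linarith) (by linarith)
      rw [hexp]
      refine g5.trans ?_
      calc z.im ^ (6:ℝ) ≤ (2 * T) ^ (6:ℝ) := Real.rpow_le_rpow (by linarith) (by linarith) (by norm_num)
        _ = 2 ^ (6:ℝ) * T ^ (6:ℝ) := Real.mul_rpow (by norm_num) hT0.le
        _ ≤ T ^ (1:ℝ) * T ^ (6:ℝ) := mul_le_mul_of_nonneg_right (hT4 T (by linarith)) (by positivity)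
        _ = T ^ (7:ℝ) := by rw [← Real.rpow_add hT0]; norm_num
    · intro z hz1 hz2
      have g2 := abs_le.1 hz2
      exact (hfar z (by linarith) (by linarith)).trans hB1
    · have g1 := hlow ⟨X, T⟩ le_rfl
      refine le_trans ?_ g1
      simp only
      rw [div_le_iff₀ (by linarith)]
      have g6 : 1 / (c * (n₀ : ℝ) ^ (-X)) ≤ B := by linarith
      rw [div_le_iff₀ hcX] at g6
      linarith
    · intro S hS
      exact hfew S fun z hz => ⟨by linarith [(hS z hz).1], (hS z hz).2⟩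
  · exact (hfar _ (by simp only; linarith) (by simp only; linarith)).trans (hT5 T (by linarith))

/-- between two corridors with few zeros the function is small -/
theorem barrier {P : ℂ[X]} (hP : P ≠ 0) (N : ℕ) (b : ℕ → ℂ) {σ₀ : ℝ} (h0 : 0 ≤ σ₀) (h1 : σ₀ < 1) {κ : ℝ}
    (hκ : 0 < κ) : ∃ δ : ℝ, 0 < δ ∧ ∀ η : ℝ, 0 < η → ∃ θ : ℝ, 0 < θ ∧ ∃ T₀ : ℝ, 1 ≤ T₀ ∧
      ∀ T : ℝ, T₀ ≤ T → ∀ T' T'' : ℝ, T - δ ≤ T' → T' ≤ T → T ≤ T'' → T'' ≤ T + δ →
        FewB (Fr P N b) (σ₀ + δ) T' η (θ * Real.log T) →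
        FewB (Fr P N b) (σ₀ + δ) T'' η (θ * Real.log T) →
        ∀ x : ℝ, σ₀ + κ ≤ x → ‖Fr P N b ⟨x, T⟩‖ ≤ T ^ κ := by
  have hπ := Real.pi_pos
  have hπ3 := Real.pi_gt_three
  obtain ⟨n₀, c, X, hn0, hc0, hX4, -⟩ := rlow hP N b
  obtain ⟨C, hC1, hfar⟩ := fr_far P N b
  set δ : ℝ := min (min (κ / 4) (κ ^ 2 / 100)) (1 / 4) with hδ
  have hδ0 : 0 < δ := lt_min (lt_min (by positivity) (by positivity)) (by norm_num)
  have hδ1 : δ ≤ κ / 4 := (min_le_left _ _).trans (min_le_left _ _)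
  have hδ2 : δ ≤ κ ^ 2 / 100 := (min_le_left _ _).trans (min_le_right _ _)
  have hδ3 : δ ≤ 1 / 4 := min_le_right _ _
  set a : ℝ := Real.pi / (4 * δ) with ha
  have ha0 : 0 < a := by positivity
  -- the exponential
  have hexp0 : 14 * Real.exp (-(a * (κ / 2))) ≤ κ / 2 := by
    have g1 : 0 < a * (κ / 2) := by positivity
    have g2 : a * (κ / 2) ≤ Real.exp (a * (κ / 2)) := by
      have := Real.add_one_le_exp (a * (κ / 2))
      linarith
    have g3 : Real.exp (-(a * (κ / 2))) ≤ 1 / (a * (κ / 2)) := by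
      rw [Real.exp_neg, ← one_div]
      exact one_div_le_one_div_of_le g1 g2
    have g4 : 1 / (a * (κ / 2)) = 8 * δ / (Real.pi * κ) := by
      rw [ha]; field_simp; norm_num
    rw [g4] at g3
    have g5 : 8 * δ / (Real.pi * κ) ≤ κ / 28 := by
      rw [div_le_iff₀ (by positivity)]
      have : κ / 28 * (Real.pi * κ) = κ ^ 2 * Real.pi / 28 := by ring
      rw [this]
      nlinarith [sq_nonneg κ]
    linarith
  refine ⟨δ, hδ0, fun η hη => ?_⟩
  obtain ⟨θ, hθ, T₁, hT1, hcor⟩ := fr_corridor hP N b (σ₁ := σ₀ + δ) (σ := σ₀ + 2 * δ) (η := η)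
    (κ := κ / 8) (by linarith) (by linarith) (by linarith) hη (by positivity)
  obtain ⟨T₂, hT2, hG⟩ := fr_crude P N b
  obtain ⟨T₄, hT41, hT4⟩ := absorb (2 ^ (6 : ℝ)) (ε := 1) one_pos
  obtain ⟨T₅, hT51, hT5⟩ := absorb C (ε := κ / 4) (by positivity)
  obtain ⟨T₆, hT61, hT6⟩ := absorb (2 ^ (κ / 8)) (ε := κ / 8) (by positivity)
  refine ⟨θ / 2, by positivity, T₁ + T₂ + T₄ + T₅ + T₆ + 5, by linarith,
    fun T hT T' T'' t1 t2 t3 t4 hf1 hf2 x hx => ?_⟩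
  have hT0 : 0 < T := by linarith
  have hl1 : 1 ≤ Real.log T := by
    rw [Real.le_log_iff_exp_le hT0]
    have := Real.exp_one_lt_d9
    linarith
  set L := Real.log T with hL
  have hexp : ∀ p : ℝ, Real.exp (p * L) = T ^ p := fun p => by
    rw [Real.rpow_def_of_pos hT0, mul_comm]
  have hpow : ∀ p q : ℝ, p ≤ q → T ^ p ≤ T ^ q := fun p q h =>
    Real.rpow_le_rpow_of_exponent_le (by linarith) h
  -- the corridors
  have hlog : ∀ U : ℝ, T - 1 ≤ U → θ / 2 * L ≤ θ * Real.log U := by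
    intro U hU
    have h3 : L ≤ 2 * Real.log U := by
      have : (2:ℝ) * Real.log U = Real.log (U ^ 2) := by rw [Real.log_pow]; norm_num
      rw [this]
      apply Real.log_le_log hT0
      nlinarith
    nlinarith
  have hsmall : ∀ U : ℝ, T - δ ≤ U → U ≤ T + δ → FewB (Fr P N b) (σ₀ + δ) U η (θ / 2 * L) →
      ∀ x : ℝ, σ₀ + 2 * δ ≤ x → ‖Fr P N b ⟨x, U⟩‖ ≤ T ^ (κ / 4) := by
    intro U hU1 hU2 hfew x hx
    have g1 := hcor U (by linarith) (hfew.mono le_rfl (hlog U (by linarith))) x hx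
    refine g1.trans ?_
    calc U ^ (κ / 8) ≤ (2 * T) ^ (κ / 8) := Real.rpow_le_rpow (by linarith) (by linarith) (by positivity)
      _ = 2 ^ (κ / 8) * T ^ (κ / 8) := Real.mul_rpow (by norm_num) hT0.le
      _ ≤ T ^ (κ / 8) * T ^ (κ / 8) := mul_le_mul_of_nonneg_right (hT6 T (by linarith)) (by positivity)
      _ = T ^ (κ / 4) := by rw [← Real.rpow_add hT0]; congr 1; ring
  rcases eq_or_lt_of_le t2 with e2 | e2
  · rw [← e2]
    have := hsmall T' t1 (by linarith) hf1 x (by linarith)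
    refine this.trans ?_
    rw [e2]
    exact hpow _ _ (by linarith)
  rcases eq_or_lt_of_le t3 with e3 | e3
  · have := hsmall T'' (by linarith) t4 hf2 x (by linarith)
    rw [← e3] at this
    exact this.trans (hpow _ _ (by linarith))
  rcases le_or_gt X x with hxX | hxX
  · exact ((hfar _ (by simp only; linarith) (by simp only; linarith)).trans (hT5 T (by linarith))).trans
      (hpow _ _ (by linarith))
  · have hr := rect_abs (f := Fr P N b) (x₁ := σ₀ + 2 * δ) (X := X) (y₁ := T') (y₂ := T'') (A := 7 * L)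
      (E := κ / 4 * L) (a := a) (by linarith) (by linarith) ha0 (by
        have g1 : T'' - T' ≤ 2 * δ := by linarith
        calc a * (T'' - T') ≤ a * (2 * δ) := mul_le_mul_of_nonneg_left g1 ha0.le
          _ = Real.pi / 2 := by rw [ha]; field_simp; norm_num) (by linarith) (by positivity) (by
        intro z g1 g2 g3 g4
        exact (fr_an P N b (by linarith)).differentiableAt) (by
        intro y g1 g2
        have g5 := hG ⟨σ₀ + 2 * δ, y⟩ (by simp only; linarith) (by simp only; linarith)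
        rw [hexp]
        refine g5.trans ?_
        simp only
        calc y ^ (6:ℝ) ≤ (2 * T) ^ (6:ℝ) := Real.rpow_le_rpow (by linarith) (by linarith) (by norm_num)
          _ = 2 ^ (6:ℝ) * T ^ (6:ℝ) := Real.mul_rpow (by norm_num) hT0.le
          _ ≤ T ^ (1:ℝ) * T ^ (6:ℝ) := mul_le_mul_of_nonneg_right (hT4 T (by linarith)) (by positivity)
          _ = T ^ (7:ℝ) := by rw [← Real.rpow_add hT0]; norm_num) (by
        intro y g1 g2
        rw [hexp]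
        exact (hfar _ (by simp only; linarith) (by simp only; linarith)).trans (hT5 T (by linarith))) (by
        intro u g1 g2
        rw [hexp]
        exact hsmall T' t1 (by linarith) hf1 u g1) (by
        intro u g1 g2
        rw [hexp]
        exact hsmall T'' (by linarith) t4 hf2 u g1)
      (z := ⟨x, T⟩) (by simp only; linarith) hxX e2 e3
    refine hr.trans ?_
    rw [← hexp]
    apply Real.exp_le_exp.2
    simp only
    have g1 : Real.exp (-(a * (x - (σ₀ + 2 * δ)))) ≤ Real.exp (-(a * (κ / 2))) := by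
      apply Real.exp_le_exp.2
      have : a * (κ / 2) ≤ a * (x - (σ₀ + 2 * δ)) := mul_le_mul_of_nonneg_left (by linarith) ha0.le
      linarith
    have g2 : 2 * (7 * L) * Real.exp (-(a * (x - (σ₀ + 2 * δ)))) ≤
        2 * (7 * L) * Real.exp (-(a * (κ / 2))) := mul_le_mul_of_nonneg_left g1 (by linarith)
    have g3 : 2 * (7 * L) * Real.exp (-(a * (κ / 2))) = (14 * Real.exp (-(a * (κ / 2)))) * L := by ring
    have g4 : (14 * Real.exp (-(a * (κ / 2)))) * L ≤ κ / 2 * L :=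
      mul_le_mul_of_nonneg_right hexp0 (by linarith)
    nlinarith

/-- small values imply few zeros -/
lemma fr_jensen {P : ℂ[X]} (hP : P ≠ 0) (N : ℕ) (b : ℕ → ℂ) {σ₀ : ℝ} (h0 : 0 ≤ σ₀)
    {δ : ℝ} (hδ : 0 < δ) (hδ2 : σ₀ + δ < 1) {ε : ℝ} (hε : 0 < ε) : ∃ κ : ℝ, 0 < κ ∧
    ((∃ T₀ : ℝ, ∀ T : ℝ, T₀ ≤ T → ∀ x : ℝ, σ₀ + δ / 2 ≤ x → ‖Fr P N b ⟨x, T⟩‖ ≤ T ^ κ) →
      FewU (Fr P N b) (Ici (σ₀ + δ)) (δ / 4) ε) := by
  classical
  obtain ⟨n₀, c, X, hn0, hc0, hX4, hlow'⟩ := rlow hP N b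
  have hlow : ∀ s : ℂ, X ≤ s.re → c * (n₀ : ℝ) ^ (-s.re) ≤ ‖Fr P N b s‖ := hlow'
  have hn0' : (0:ℝ) < n₀ := by exact_mod_cast (by omega : 0 < n₀)
  set R : ℝ := X - σ₀ - δ / 2 with hR
  obtain ⟨η, hη, hJ⟩ := gjensen (R := R) (δ := δ / 4) (by positivity) (by linarith) hε
  refine ⟨η / 2, by positivity, fun hsm => ?_⟩
  obtain ⟨T₁, hG⟩ := hsm
  obtain ⟨T₃, hT31, hT3⟩ := absorb (2 ^ (η / 2)) (ε := η / 2) (by positivity)
  obtain ⟨T₄, hT41, hT4⟩ := absorb (1 / (c * (n₀ : ℝ) ^ (-X))) (ε := η) (by positivity)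
  have hT1a := abs_nonneg T₁
  have hT1b := le_abs_self T₁
  refine ⟨|T₁| + T₃ + T₄ + X + 5, fun T hT S hS => ?_⟩
  have hT0 : 0 < T := by linarith
  have hl1 : 1 ≤ Real.log T := by
    rw [Real.le_log_iff_exp_le hT0]
    have := Real.exp_one_lt_d9
    linarith
  set L := Real.log T with hL
  have hexp : ∀ p : ℝ, Real.exp (p * L) = T ^ p := fun p => by
    rw [Real.rpow_def_of_pos hT0, mul_comm]
  set c₀ : ℂ := ⟨X, T⟩ with hc₀
  have hball : ∀ z ∈ closedBall c₀ R, σ₀ + δ / 2 ≤ z.re ∧ T - X ≤ z.im ∧ z.im ≤ T + X := by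
    intro z hz
    rw [mem_closedBall, dist_eq_norm] at hz
    have g1 := abs_le.1 ((Complex.abs_re_le_norm (z - c₀)).trans hz)
    have g2 := abs_le.1 ((Complex.abs_im_le_norm (z - c₀)).trans hz)
    rw [Complex.sub_re] at g1
    rw [Complex.sub_im] at g2
    simp only [hc₀] at g1 g2
    refine ⟨by linarith, by linarith, by linarith⟩
  rw [← Finset.sum_filter_add_sum_filter_not S (fun z => z.re ≤ X)]
  have hz0 : ∑ z ∈ S.filter (fun z => ¬ z.re ≤ X), (mult (Fr P N b) z : ℝ) = 0 := by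
    apply Finset.sum_eq_zero
    intro z hz
    rw [Finset.mem_filter, not_le] at hz
    have g1 := hlow z hz.2.le
    have g2 := abs_le.1 (hS z hz.1).2
    have g3 : 0 < c * (n₀ : ℝ) ^ (-z.re) := by positivity
    rw [mult_pos_zero (fr_an P N b (by linarith)) (norm_pos_iff.1 (by linarith))]
    exact Nat.cast_zero
  rw [hz0, add_zero]
  refine hJ L (by linarith) (Fr P N b) c₀ (by
    intro z hz
    obtain ⟨g1, g2, g3⟩ := hball z hz
    exact fr_an P N b (by linarith)) (by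
    intro z hz
    obtain ⟨g1, g2, g3⟩ := hball z hz
    have g5 := hG z.im (by linarith) z.re g1
    have e : (⟨z.re, z.im⟩ : ℂ) = z := rfl
    rw [e] at g5
    rw [hexp]
    refine g5.trans ?_
    calc z.im ^ (η / 2) ≤ (2 * T) ^ (η / 2) :=
          Real.rpow_le_rpow (by linarith) (by linarith) (by positivity)
      _ = 2 ^ (η / 2) * T ^ (η / 2) := Real.mul_rpow (by norm_num) hT0.le
      _ ≤ T ^ (η / 2) * T ^ (η / 2) := mul_le_mul_of_nonneg_right (hT3 T (by linarith)) (by positivity)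
      _ = T ^ η := by rw [← Real.rpow_add hT0]; congr 1; ring) (by
    have g1 := hlow c₀ le_rfl
    refine le_trans ?_ g1
    rw [show -(η * L) = (-η) * L by ring, hexp]
    have g4 := hT4 T (by linarith)
    have e1 : c₀.re = X := rfl
    rw [e1]
    have g5 : 0 < c * (n₀ : ℝ) ^ (-X) := by positivity
    rw [Real.rpow_neg hT0.le]
    rw [inv_le_comm₀ (by positivity) g5, ← one_div]
    exact g4)
    _ (by
      intro z hz
      rw [Finset.mem_filter] at hz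
      obtain ⟨g1, g2⟩ := hS z hz.1
      rw [mem_closedBall, dist_eq_norm]
      refine (Complex.norm_le_abs_re_add_abs_im _).trans ?_
      rw [Complex.sub_re, Complex.sub_im]
      simp only [hc₀]
      have g4 : σ₀ + δ ≤ z.re := g1
      have g3 : |z.re - X| ≤ X - σ₀ - δ := by
        rw [abs_le]
        constructor
        · linarith
        · linarith [hz.2]
      linarith)

/-- one sparse corridor in each window of height `2δ` -/
def Corr (f : ℂ → ℂ) (σ₀ δ η θ : ℝ) : Prop := ∃ T₀ : ℝ, ∀ T : ℝ, T₀ ≤ T →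
  ∃ T' : ℝ, |T' - T| ≤ δ ∧ FewB f (σ₀ + δ) T' η (θ * Real.log T)

theorem quant {P : ℂ[X]} (hP : P ≠ 0) (N : ℕ) (b : ℕ → ℂ) {σ₀ : ℝ} (h0 : 1 / 2 ≤ σ₀) (h1 : σ₀ < 1)
    {κ : ℝ} (hκ : 0 < κ) : ∃ δ : ℝ, 0 < δ ∧ ∀ η : ℝ, 0 < η → ∃ θ : ℝ, 0 < θ ∧
      (Corr (Fr P N b) σ₀ δ η θ →
        ∃ C : ℝ, ∀ t : ℝ, 1 ≤ |t| → ‖riemannZeta (σ₀ + t * I)‖ ≤ C * |t| ^ κ) := by
  set d : ℝ := min (κ / 4) ((1 - σ₀) / 4) with hd
  have hd0 : 0 < d := lt_min (by positivity) (by linarith)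
  have hd1 : d ≤ κ / 4 := min_le_left _ _
  have hd2 : d ≤ (1 - σ₀) / 4 := min_le_right _ _
  obtain ⟨θA, hθA, HA⟩ := right_back hP N b (σ₀ := σ₀ + d) (σ := σ₀ + 2 * d) (by linarith) (by linarith)
    (by linarith) (κ := κ / 4) (by positivity)
  obtain ⟨c, hc, hcov⟩ := FewU.cover (f := Fr P N b) (E := Ici (σ₀ + d)) (y := d / 4)
    (by positivity) 1
  obtain ⟨κJ, hκJ, HJ⟩ := fr_jensen hP N b (σ₀ := σ₀) (δ := d) (by linarith) hd0 (by linarith)
    (ε := θA / c) (by positivity)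
  set κb : ℝ := min κJ (d / 2) with hκb
  have hκb0 : 0 < κb := lt_min hκJ (by positivity)
  have hκb1 : κb ≤ κJ := min_le_left _ _
  have hκb2 : κb ≤ d / 2 := min_le_right _ _
  obtain ⟨δb, hδb, HB⟩ := barrier hP N b (σ₀ := σ₀) (by linarith) h1 hκb0
  refine ⟨δb / 2, by positivity, fun η hη => ?_⟩
  obtain ⟨θb, hθb, T₁, hT1, HB'⟩ := HB η hη
  refine ⟨θb / 2, by positivity, fun hcorr => ?_⟩
  obtain ⟨T₂, hT2⟩ := hcorr
  have hsm : ∃ T₀ : ℝ, ∀ T : ℝ, T₀ ≤ T → ∀ x : ℝ, σ₀ + d / 2 ≤ x → ‖Fr P N b ⟨x, T⟩‖ ≤ T ^ κJ := by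
    have hT2a := abs_nonneg T₂
    have hT2b := le_abs_self T₂
    refine ⟨T₁ + |T₂| + δb + 5, fun T hT x hx => ?_⟩
    have hT0 : 0 < T := by linarith
    have hl1 : 0 ≤ Real.log T := Real.log_nonneg (by linarith)
    obtain ⟨T', a1, a2⟩ := hT2 (T - δb / 2) (by linarith)
    obtain ⟨T'', b1, b2⟩ := hT2 (T + δb / 2) (by linarith)
    have a1' := abs_le.1 a1
    have b1' := abs_le.1 b1
    have l1 : Real.log (T - δb / 2) ≤ Real.log T := Real.log_le_log (by linarith) (by linarith)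
    have l2 : Real.log (T + δb / 2) ≤ 2 * Real.log T := by
      have : (2:ℝ) * Real.log T = Real.log (T ^ 2) := by rw [Real.log_pow]; norm_num
      rw [this]
      apply Real.log_le_log (by linarith)
      nlinarith
    have := HB' T (by linarith) T' T'' (by linarith) (by linarith) (by linarith) (by linarith)
      (a2.mono (by linarith) (by nlinarith)) (b2.mono (by linarith) (by nlinarith)) x (by linarith)
    exact this.trans (Real.rpow_le_rpow_of_exponent_le (by linarith) hκb1)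
  have h7 := hcov _ (by positivity) (HJ hsm)
  rw [mul_div_cancel₀ _ hc.ne'] at h7
  have key := HA h7
  have h4 := key.left' (σ' := σ₀) (by linarith) (by linarith) (by linarith) (by linarith)
  have h5 : Exu σ₀ (κ / 2) := h4.mono (by linarith)
  have h6 := bd_line (by positivity) h5 (ε := κ / 2) (by positivity)
  have e : κ / 2 + κ / 2 = κ := by ring
  rwa [e] at h6

lemma exu_of_line {σ₀ : ℝ} (h : ∀ κ : ℝ, 0 < κ → ∃ C : ℝ, ∀ t : ℝ, 1 ≤ |t| →
    ‖riemannZeta (σ₀ + t * I)‖ ≤ C * |t| ^ κ) : Exu σ₀ 0 := by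
  intro ε hε
  obtain ⟨C, hC⟩ := h (ε / 2) (by positivity)
  obtain ⟨T₀, hT0, hT⟩ := absorb C (ε := ε / 2) (by positivity)
  refine ⟨T₀, fun t ht => ?_⟩
  have ht0 : 0 < t := by linarith
  have h1 := hC t (by rw [abs_of_pos ht0]; linarith)
  rw [norm_neg_t, abs_of_pos ht0] at h1
  refine h1.trans ?_
  calc C * t ^ (ε / 2) ≤ t ^ (ε / 2) * t ^ (ε / 2) := mul_le_mul_of_nonneg_right (hT t ht) (by positivity)
    _ = t ^ (0 + ε) := by rw [← Real.rpow_add ht0]; congr 1; ring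

theorem corr_iff {P : ℂ[X]} (hP : P ≠ 0) (N : ℕ) (b : ℕ → ℂ) {σ₀ : ℝ} (h0 : 1 / 2 ≤ σ₀) (h1 : σ₀ < 1) :
    Bd σ₀ ↔ ∀ δ : ℝ, 0 < δ → ∃ η : ℝ, 0 < η ∧ ∀ θ : ℝ, 0 < θ → Corr (Fr P N b) σ₀ δ η θ := by
  constructor
  · intro h δ hδ
    refine ⟨1, one_pos, fun θ hθ => ?_⟩
    obtain ⟨T₀, hT⟩ := SP.right_few hP N b h0 h1 h hδ hθ
    refine ⟨max T₀ 0, fun T hT' => ⟨T, by simpa using hδ.le, fun S hS => ?_⟩⟩
    have h2 : 0 ≤ T := (le_max_right _ _).trans hT'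
    have h3 := hT T (by rw [abs_of_nonneg h2]; exact (le_max_left _ _).trans hT') S hS
    rwa [abs_of_nonneg h2] at h3
  · intro h
    have key : Exu σ₀ 0 := by
      apply exu_of_line
      intro κ hκ
      obtain ⟨δ, hδ, H⟩ := quant hP N b h0 h1 hκ
      obtain ⟨η, hη, H2⟩ := h δ hδ
      obtain ⟨θ, hθ, H3⟩ := H η hη
      exact H3 (H2 θ hθ)
    apply bd_of_exu
    intro σ hσ1 hσ2 ε hε
    obtain ⟨T₀, _, hT⟩ := key.right le_rfl (by linarith) (by linarith) hε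
    exact ⟨T₀, fun t ht => hT ⟨σ, t⟩ hσ1.le (by simp only; linarith) ht⟩

/-- large values are accompanied by a barrier of zeros -/
theorem barrier' {P : ℂ[X]} (hP : P ≠ 0) (N : ℕ) (b : ℕ → ℂ) {σ₀ : ℝ} (h0 : 0 ≤ σ₀) (h1 : σ₀ < 1) {κ : ℝ}
    (hκ : 0 < κ) : ∃ δ : ℝ, 0 < δ ∧ ∀ η : ℝ, 0 < η → ∃ θ : ℝ, 0 < θ ∧ ∃ T₀ : ℝ, 1 ≤ T₀ ∧
      ∀ x T : ℝ, T₀ ≤ T → σ₀ + κ ≤ x → T ^ κ < ‖Fr P N b (x + T * I)‖ →
        (∀ T' : ℝ, T - δ ≤ T' → T' ≤ T → ¬ FewB (Fr P N b) (σ₀ + δ) T' η (θ * Real.log T)) ∨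
        (∀ T' : ℝ, T ≤ T' → T' ≤ T + δ → ¬ FewB (Fr P N b) (σ₀ + δ) T' η (θ * Real.log T)) := by
  obtain ⟨δ, hδ, H⟩ := barrier hP N b h0 h1 hκ
  refine ⟨δ, hδ, fun η hη => ?_⟩
  obtain ⟨θ, hθ, T₀, hT0, H'⟩ := H η hη
  refine ⟨θ, hθ, T₀, hT0, fun x T hT hx hbig => ?_⟩
  by_contra hcon
  push Not at hcon
  obtain ⟨⟨T', a1, a2, a3⟩, T'', b1, b2, b3⟩ := hcon
  have h2 := H' T hT T' T'' a1 a2 b1 b2 a3 b3 x hx
  have e : (x + T * I : ℂ) = ⟨x, T⟩ := by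
    apply Complex.ext <;> simp
  rw [e] at hbig
  linarith

end Pool.Agent.L7h13.WL
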