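import Pool.Agent.L7h13.SP.Fin

/-!
# Backlund's argument in a thin corridor
-/

set_option autoImplicit false

open Complex Set Metric Polynomial

namespace Pool.Agent.L7h13.WL

open Pool.Agent.L7h13.SP H370

lemma mult_comp {f φ : ℂ → ℂ} {z : ℂ} (hφ : AnalyticAt ℂ φ z) (hφ' : deriv φ z ≠ 0)
    (hf : AnalyticAt ℂ f (φ z)) : mult (fun w => f (φ w)) z = mult f (φ z) := by
  unfold mult analyticOrderNatAt
  congr 1
  have h1 : analyticOrderAt (f ∘ φ) z =
      analyticOrderAt f (φ z) * analyticOrderAt (fun w => φ w - φ z) z :=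
    AnalyticAt.analyticOrderAt_comp (g := φ) hf hφ
  have h2 : analyticOrderAt (fun w => φ w - φ z) z = 1 :=
    hφ.analyticOrderAt_sub_eq_one_of_deriv_ne_zero hφ'
  rw [h2, mul_one] at h1
  exact h1

/-- from the disc to the right half plane -/
noncomputable def mo (z : ℂ) : ℂ := (1 + z) / (1 - z)

lemma one_sub_ne {z : ℂ} (hz : ‖z‖ < 1) : 1 - z ≠ 0 := by
  intro h
  have : z = 1 := (sub_eq_zero.1 h).symm
  rw [this, norm_one] at hz
  exact lt_irrefl _ hz

lemma one_add_ne {z : ℂ} (hz : ‖z‖ < 1) : 1 + z ≠ 0 := by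
  intro h
  have : z = -1 := by linear_combination h
  rw [this, norm_neg, norm_one] at hz
  exact lt_irrefl _ hz

lemma mo_ne {z : ℂ} (hz : ‖z‖ < 1) : mo z ≠ 0 := div_ne_zero (one_add_ne hz) (one_sub_ne hz)

lemma mo_re {z : ℂ} (hz : ‖z‖ < 1) : 0 < (mo z).re := by
  unfold mo
  rw [Complex.div_re]
  have h1 : 0 < normSq (1 - z) := normSq_pos.2 (one_sub_ne hz)
  have h2 : normSq z < 1 := by
    rw [Complex.normSq_eq_norm_sq]
    nlinarith [norm_nonneg z]
  rw [Complex.normSq_apply] at h2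
  have e1 : (1 + z).re * (1 - z).re / normSq (1 - z) + (1 + z).im * (1 - z).im / normSq (1 - z) =
      (1 - (z.re * z.re + z.im * z.im)) / normSq (1 - z) := by
    simp only [Complex.add_re, Complex.sub_re, Complex.one_re, Complex.add_im, Complex.sub_im,
      Complex.one_im]
    ring
  rw [e1]
  apply div_pos (by linarith) h1

/-- the radius -/
noncomputable def rad (v : ℝ) : ℝ := (Real.exp v - 1) / (Real.exp v + 1)

lemma rad_lt (v : ℝ) : rad v < 1 := by
  unfold rad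
  rw [div_lt_one (by positivity)]
  linarith

lemma rad_nonneg {v : ℝ} (hv : 0 ≤ v) : 0 ≤ rad v := by
  unfold rad
  have := Real.one_le_exp hv
  apply div_nonneg <;> linarith

lemma rad_pos {v : ℝ} (hv : 0 < v) : 0 < rad v := by
  unfold rad
  have : 1 < Real.exp v := Real.one_lt_exp_iff.2 hv
  apply div_pos <;> linarith

lemma rad_mono {v w : ℝ} (h : v ≤ w) : rad v ≤ rad w := by
  unfold rad
  have h1 := Real.exp_le_exp.2 h
  have h2 := Real.exp_pos v
  rw [div_le_div_iff₀ (by positivity) (by positivity)]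
  nlinarith

lemma rad_lt_rad {v w : ℝ} (h : v < w) : rad v < rad w := by
  unfold rad
  have h1 := Real.exp_lt_exp.2 h
  have h2 := Real.exp_pos v
  rw [div_lt_div_iff₀ (by positivity) (by positivity)]
  nlinarith

lemma mo_norm {v : ℝ} {z : ℂ} (hz : ‖z‖ ≤ rad v) :
    Real.exp (-v) ≤ ‖mo z‖ ∧ ‖mo z‖ ≤ Real.exp v := by
  have hz1 : ‖z‖ < 1 := hz.trans_lt (rad_lt v)
  have hv := Real.exp_pos v
  have h1 : ‖z‖ * (Real.exp v + 1) ≤ Real.exp v - 1 := by
    unfold rad at hz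
    rwa [le_div_iff₀ (by positivity)] at hz
  have h2 : ‖1 + z‖ ≤ 1 + ‖z‖ := by
    have := norm_add_le (1:ℂ) z
    rwa [norm_one] at this
  have h3 : 1 - ‖z‖ ≤ ‖1 - z‖ := by
    have := norm_sub_norm_le (1:ℂ) z
    rwa [norm_one] at this
  have h4 : 1 - ‖z‖ ≤ ‖1 + z‖ := by
    have := norm_sub_norm_le (1:ℂ) (-z)
    rwa [norm_one, norm_neg, sub_neg_eq_add] at this
  have h5 : ‖1 - z‖ ≤ 1 + ‖z‖ := by
    have := norm_sub_le (1:ℂ) z
    rwa [norm_one] at this
  have h6 : 0 < ‖1 - z‖ := norm_pos_iff.2 (one_sub_ne hz1)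
  unfold mo
  rw [norm_div]
  constructor
  · rw [le_div_iff₀ h6, Real.exp_neg, inv_mul_le_iff₀ hv]
    nlinarith
  · rw [div_le_iff₀ h6]
    nlinarith

/-- the map of the disc to the corridor -/
noncomputable def ph (X T a : ℝ) (z : ℂ) : ℂ := ⟨X, T⟩ + a * Complex.log (mo z)

lemma ph_re {X T a v : ℝ} (ha : 0 < a) {z : ℂ} (hz : ‖z‖ ≤ rad v) : X - a * v ≤ (ph X T a z).re := by
  have hz1 : ‖z‖ < 1 := hz.trans_lt (rad_lt v)
  unfold ph
  rw [Complex.add_re, Complex.re_ofReal_mul, Complex.log_re]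
  simp only
  have h1 := (mo_norm hz).1
  have h2 : -v ≤ Real.log ‖mo z‖ := (Real.le_log_iff_exp_le (norm_pos_iff.2 (mo_ne hz1))).2 h1
  nlinarith

lemma ph_im {X T a : ℝ} (ha : 0 < a) {z : ℂ} (hz : ‖z‖ < 1) : |(ph X T a z).im - T| ≤ a * (Real.pi / 2) := by
  unfold ph
  rw [Complex.add_im, Complex.im_ofReal_mul, Complex.log_im]
  simp only
  rw [add_sub_cancel_left, abs_mul, abs_of_pos ha]
  apply mul_le_mul_of_nonneg_left _ ha.le
  exact Complex.abs_arg_le_pi_div_two_iff.2 (mo_re hz).le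

lemma ph_inj {X T a : ℝ} (ha : 0 < a) {z w : ℂ} (hz : ‖z‖ < 1) (hw : ‖w‖ < 1)
    (h : ph X T a z = ph X T a w) : z = w := by
  unfold ph at h
  have ha' : (a : ℂ) ≠ 0 := by exact_mod_cast ha.ne'
  have h1 : Complex.log (mo z) = Complex.log (mo w) := mul_left_cancel₀ ha' (add_left_cancel h)
  have h2 : mo z = mo w := by
    rw [← Complex.exp_log (mo_ne hz), ← Complex.exp_log (mo_ne hw), h1]
  unfold mo at h2
  rw [div_eq_div_iff (one_sub_ne hz) (one_sub_ne hw)] at h2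
  linear_combination h2 / 2

lemma ph_deriv {X T a : ℝ} {z : ℂ} (hz : ‖z‖ < 1) :
    HasDerivAt (ph X T a) (a * (2 / ((1 - z) * (1 + z)))) z := by
  have h0 := one_sub_ne hz
  have h0' := one_add_ne hz
  have h1 : HasDerivAt mo ((1 * (1 - z) - (1 + z) * (-1)) / (1 - z) ^ 2) z := by
    have e1 : HasDerivAt (fun w : ℂ => 1 + w) 1 z := by simpa using (hasDerivAt_id z).const_add 1
    have e2 : HasDerivAt (fun w : ℂ => 1 - w) (-1) z := by simpa using (hasDerivAt_id z).const_sub 1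
    exact e1.div e2 h0
  have h2 : mo z ∈ Complex.slitPlane := Or.inl (mo_re hz)
  have h3 := (h1.clog h2).const_mul (a : ℂ)
  have h4 := h3.const_add (⟨X, T⟩ : ℂ)
  refine h4.congr_deriv ?_
  unfold mo
  field_simp
  ring

lemma ph_an {X T a : ℝ} {z : ℂ} (hz : ‖z‖ < 1) : AnalyticAt ℂ (ph X T a) z := by
  have hopen : IsOpen (ball (0:ℂ) 1) := isOpen_ball
  have : DifferentiableOn ℂ (ph X T a) (ball 0 1) := fun w hw => by
    rw [mem_ball_zero_iff] at hw
    exact (ph_deriv hw).differentiableAt.differentiableWithinAt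
  exact this.analyticAt (hopen.mem_nhds (mem_ball_zero_iff.2 hz))

lemma ph_deriv_ne {X T a : ℝ} (ha : 0 < a) {z : ℂ} (hz : ‖z‖ < 1) : deriv (ph X T a) z ≠ 0 := by
  rw [(ph_deriv hz).deriv]
  have ha' : (a : ℂ) ≠ 0 := by exact_mod_cast ha.ne'
  exact mul_ne_zero ha' (div_ne_zero two_ne_zero (mul_ne_zero (one_sub_ne hz) (one_add_ne hz)))

lemma ph_zero (X T a : ℝ) : ph X T a 0 = ⟨X, T⟩ := by
  unfold ph mo
  simp

/-- the points of the middle line -/
lemma ph_mid {X T a u : ℝ} (ha : 0 < a) :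
    ph X T a (-((rad (u / a) : ℝ) : ℂ)) = ⟨X - u, T⟩ := by
  set E := Real.exp (u / a) with hE
  have hE0 : 0 < E := Real.exp_pos _
  have h1 : mo (-((rad (u / a) : ℝ) : ℂ)) = ((Real.exp (-(u / a)) : ℝ) : ℂ) := by
    unfold mo rad
    rw [← hE, Real.exp_neg, ← hE]
    have hEc : ((E : ℝ) : ℂ) ≠ 0 := by exact_mod_cast hE0.ne'
    have hEc1 : ((E : ℝ) : ℂ) + 1 ≠ 0 := by
      have : ((E + 1 : ℝ) : ℂ) ≠ 0 := by exact_mod_cast (by positivity : E + 1 ≠ 0)
      simpa using this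
    push_cast
    have e1 : (1 : ℂ) + -(((E : ℂ) - 1) / ((E : ℂ) + 1)) = 2 / ((E : ℂ) + 1) := by
      field_simp; ring
    have e2 : (1 : ℂ) - -(((E : ℂ) - 1) / ((E : ℂ) + 1)) = 2 * E / ((E : ℂ) + 1) := by
      field_simp; ring
    rw [e1, e2]
    field_simp
  unfold ph
  rw [h1, ← Complex.ofReal_log (Real.exp_pos _).le, Real.log_exp, ← Complex.ofReal_mul]
  have h2 : a * -(u / a) = -u := by field_simp
  rw [h2]
  apply Complex.ext
  · simp; ring
  · simp

/-- few zeros in a thin corridor imply small values on its middle line -/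
lemma corridor_abs {X l₁ l η A B ε : ℝ} (hl : 0 < l) (hl1 : l < l₁) (hη : 0 < η) (hA : 0 ≤ A)
    (hB : 1 ≤ B) (hε : 0 < ε) : ∃ θ : ℝ, 0 < θ ∧ ∃ L₀ : ℝ, ∀ L : ℝ, L₀ ≤ L → 0 ≤ L →
    ∀ (f : ℂ → ℂ) (T : ℝ), (∀ z : ℂ, X - l₁ ≤ z.re → |z.im - T| ≤ η → AnalyticAt ℂ f z) →
      (∀ z : ℂ, X - l₁ ≤ z.re → |z.im - T| ≤ η → ‖f z‖ ≤ Real.exp (A * L)) →
      (∀ z : ℂ, X - 1 ≤ z.re → |z.im - T| ≤ η → ‖f z‖ ≤ B) → 1 / B ≤ ‖f ⟨X, T⟩‖ →
      (∀ S : Finset ℂ, (∀ z ∈ S, X - l₁ ≤ z.re ∧ |z.im - T| ≤ η) →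
        ∑ z ∈ S, (mult f z : ℝ) ≤ θ * L) →
      ∀ x : ℝ, X - l ≤ x → x ≤ X → ‖f ⟨x, T⟩‖ ≤ Real.exp (ε * L) := by
  classical
  have hπ := Real.pi_pos
  set a : ℝ := 2 * η / Real.pi with ha
  have ha0 : 0 < a := by positivity
  have haη : a * (Real.pi / 2) = η := by rw [ha]; field_simp
  set R : ℝ := rad (l₁ / a) with hR
  set r₁ : ℝ := rad (l / a) with hr₁
  have hr1 : 0 < r₁ := rad_pos (by positivity)
  have hrR : r₁ < R := rad_lt_rad (div_lt_div_of_pos_right hl1 ha0)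
  have hR0 : 0 < R := hr1.trans hrR
  have hR1 : R < 1 := rad_lt _
  set δ : ℝ := min ((R - r₁) / 2) (R / 4) with hδ
  have hδ0 : 0 < δ := lt_min (by linarith) (by linarith)
  have hδ1 : δ ≤ (R - r₁) / 2 := min_le_left _ _
  have hδ2 : δ ≤ R / 4 := min_le_right _ _
  set r : ℝ := min R (rad (1 / a)) with hr
  have hr0 : 0 < r := lt_min hR0 (rad_pos (by positivity))
  obtain ⟨θ, hθ, L₀, hBL⟩ := gbacklund (R := R) (δ := δ) (r := r) (A := A) (B := B) hδ0 (by linarith) hr0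
    (min_le_left _ _) hA hB hε
  refine ⟨θ, hθ, L₀, fun L hL hL0 f T hfa hfA hfB hf0 hfew x hx1 hx2 => ?_⟩
  have hin : ∀ z : ℂ, z ∈ closedBall (0:ℂ) R → ‖z‖ < 1 ∧ X - l₁ ≤ (ph X T a z).re ∧
      |(ph X T a z).im - T| ≤ η := by
    intro z hz
    rw [mem_closedBall_zero_iff] at hz
    have h1 := hz.trans_lt hR1
    refine ⟨h1, ?_, ?_⟩
    · have := ph_re (X := X) (T := T) ha0 hz
      rwa [mul_div_cancel₀ _ ha0.ne'] at this
    · rw [← haη]
      exact ph_im ha0 h1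
  have key := hBL L hL hL0 (fun z => f (ph X T a z)) 0 (by
    intro z hz
    obtain ⟨h1, h2, h3⟩ := hin z hz
    exact AnalyticAt.comp (g := f) (f := ph X T a) (hfa _ h2 h3) (ph_an h1)) (by
    intro z hz
    obtain ⟨h1, h2, h3⟩ := hin z hz
    exact hfA _ h2 h3) (by
    intro z hz
    have hz' : z ∈ closedBall (0:ℂ) R := closedBall_subset_closedBall (min_le_left _ _) hz
    obtain ⟨h1, h2, h3⟩ := hin z hz'
    apply hfB _ _ h3
    rw [mem_closedBall_zero_iff] at hz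
    have := ph_re (X := X) (T := T) ha0 (hz.trans (min_le_right _ _))
    rwa [mul_div_cancel₀ _ ha0.ne'] at this) (by
    rw [ph_zero]; exact hf0) (by
    intro S hS
    have hS1 : ∀ z ∈ S, z ∈ closedBall (0:ℂ) R := fun z hz =>
      closedBall_subset_closedBall (by linarith) (hS z hz).1
    have h1 := hfew (S.image (ph X T a)) (by
      intro w hw
      rw [Finset.mem_image] at hw
      obtain ⟨z, hz, rfl⟩ := hw
      exact (hin z (hS1 z hz)).2)
    rw [Finset.sum_image (fun z hz w hw h => ph_inj ha0 (hin z (hS1 z hz)).1 (hin w (hS1 w hw)).1 h)] at h1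
    refine le_trans (le_of_eq ?_) h1
    apply Finset.sum_congr rfl
    intro z hz
    obtain ⟨h2, h3, h4⟩ := hin z (hS1 z hz)
    rw [mult_comp (ph_an h2) (ph_deriv_ne ha0 h2) (hfa _ h3 h4)])
    (-((rad ((X - x) / a) : ℝ) : ℂ)) (by
    rw [mem_closedBall_zero_iff, norm_neg, Complex.norm_real, Real.norm_eq_abs,
      abs_of_nonneg (rad_nonneg (div_nonneg (by linarith) ha0.le))]
    have : rad ((X - x) / a) ≤ r₁ := rad_mono (div_le_div_of_nonneg_right (by linarith) ha0.le)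
    linarith)
  rw [ph_mid ha0, sub_sub_cancel] at key
  exact key

/-- the maximum principle in a flat rectangle -/
lemma rect_abs {f : ℂ → ℂ} {x₁ X y₁ y₂ A E a : ℝ} (hx : x₁ < X) (hy : y₁ < y₂) (ha : 0 < a)
    (hay : a * (y₂ - y₁) ≤ Real.pi / 2) (hA : 0 ≤ A) (hE : 0 ≤ E)
    (hf : ∀ z : ℂ, x₁ ≤ z.re → z.re ≤ X → y₁ ≤ z.im → z.im ≤ y₂ → DifferentiableAt ℂ f z)
    (hl : ∀ y : ℝ, y₁ ≤ y → y ≤ y₂ → ‖f ⟨x₁, y⟩‖ ≤ Real.exp A)
    (hr : ∀ y : ℝ, y₁ ≤ y → y ≤ y₂ → ‖f ⟨X, y⟩‖ ≤ Real.exp E)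
    (hb : ∀ x : ℝ, x₁ ≤ x → x ≤ X → ‖f ⟨x, y₁⟩‖ ≤ Real.exp E)
    (ht : ∀ x : ℝ, x₁ ≤ x → x ≤ X → ‖f ⟨x, y₂⟩‖ ≤ Real.exp E)
    {z : ℂ} (h1 : x₁ < z.re) (h2 : z.re < X) (h3 : y₁ < z.im) (h4 : z.im < y₂) :
    ‖f z‖ ≤ Real.exp (E + 2 * A * Real.exp (-(a * (z.re - x₁)))) := by
  have hπ := Real.pi_pos
  set y₀ : ℝ := (y₁ + y₂) / 2 with hy₀
  set w : ℂ → ℂ := fun z => Complex.exp (-(2 * A : ℝ) * Complex.exp (-(a : ℂ) * (z - ⟨x₁, y₀⟩))) with hw
  have hwn : ∀ z : ℂ, ‖w z‖ = Real.exp (-(2 * A * (Real.exp (-(a * (z.re - x₁))) *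
      Real.cos (a * (z.im - y₀))))) := by
    intro z
    simp only [hw]
    rw [Complex.norm_exp]
    congr 1
    rw [← Complex.ofReal_neg, Complex.re_ofReal_mul, Complex.exp_re]
    have e1 : (-(a : ℂ) * (z - ⟨x₁, y₀⟩)).re = -(a * (z.re - x₁)) := by
      simp
    have e2 : (-(a : ℂ) * (z - ⟨x₁, y₀⟩)).im = -(a * (z.im - y₀)) := by
      simp
    rw [e1, e2, Real.cos_neg]
    ring
  have hcos : ∀ y : ℝ, y₁ ≤ y → y ≤ y₂ → 1 / 2 ≤ Real.cos (a * (y - y₀)) := by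
    intro y g1 g2
    have g3 : |a * (y - y₀)| ≤ Real.pi / 3 := by
      have g4 : |y - y₀| ≤ (y₂ - y₁) / 2 := by
        rw [abs_le]; constructor <;> · rw [hy₀]; linarith
      rw [abs_mul, abs_of_pos ha]
      have g5 : a * |y - y₀| ≤ a * ((y₂ - y₁) / 2) := mul_le_mul_of_nonneg_left g4 ha.le
      linarith
    rw [← Real.cos_pi_div_three, ← Real.cos_abs (a * (y - y₀))]
    exact Real.cos_le_cos_of_nonneg_of_le_pi (abs_nonneg _) (by linarith) g3
  have hw1 : ∀ z : ℂ, y₁ ≤ z.im → z.im ≤ y₂ → ‖w z‖ ≤ 1 := by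
    intro z g1 g2
    rw [hwn, Real.exp_le_one_iff]
    have g3 := hcos z.im g1 g2
    have g4 : 0 ≤ 2 * A * (Real.exp (-(a * (z.re - x₁))) * Real.cos (a * (z.im - y₀))) := by
      have := Real.exp_pos (-(a * (z.re - x₁)))
      have : 0 ≤ Real.cos (a * (z.im - y₀)) := by linarith
      positivity
    linarith
  have hwd : Differentiable ℂ w := by
    simp only [hw]
    fun_prop
  -- the product
  have hmain : ‖f z * w z‖ ≤ Real.exp E := by
    refine Complex.norm_le_of_forall_mem_frontier_norm_le (f := fun z => f z * w z)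
      (U := Ioo x₁ X ×ℂ Ioo y₁ y₂) ?_ ?_ ?_ ?_
    · exact (Metric.isBounded_Ioo _ _).reProdIm (Metric.isBounded_Ioo _ _)
    · apply DifferentiableOn.diffContOnCl
      rw [closure_reProdIm, closure_Ioo hx.ne, closure_Ioo hy.ne]
      intro z hz
      obtain ⟨⟨g1, g2⟩, g3, g4⟩ := hz
      exact ((hf z g1 g2 g3 g4).mul (hwd z)).differentiableWithinAt
    · intro v hv
      rw [frontier_reProdIm, closure_Ioo hx.ne, closure_Ioo hy.ne, frontier_Ioo hx, frontier_Ioo hy] at hv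
      rw [norm_mul]
      have hE1 : (1:ℝ) ≤ Real.exp E := Real.one_le_exp hE
      rcases hv with hv | hv
      · obtain ⟨⟨g1, g2⟩, g3⟩ := hv
        simp only [mem_preimage, mem_insert_iff, mem_singleton_iff] at g3 g1 g2
        rcases g3 with g3 | g3
        · have e : v = ⟨v.re, y₁⟩ := Complex.ext rfl g3
          have g4 := hb v.re g1 g2
          rw [← e] at g4
          have g5 := hw1 v g3.ge (by linarith)
          calc ‖f v‖ * ‖w v‖ ≤ Real.exp E * 1 := mul_le_mul g4 g5 (norm_nonneg _) (by positivity)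
            _ = _ := mul_one _
        · have e : v = ⟨v.re, y₂⟩ := Complex.ext rfl g3
          have g4 := ht v.re g1 g2
          rw [← e] at g4
          have g5 := hw1 v (by linarith) g3.le
          calc ‖f v‖ * ‖w v‖ ≤ Real.exp E * 1 := mul_le_mul g4 g5 (norm_nonneg _) (by positivity)
            _ = _ := mul_one _
      · obtain ⟨g3, ⟨g1, g2⟩⟩ := hv
        simp only [mem_preimage, mem_insert_iff, mem_singleton_iff] at g3 g1 g2
        rcases g3 with g3 | g3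
        · have e : v = ⟨x₁, v.im⟩ := Complex.ext g3 rfl
          have g4 := hl v.im g1 g2
          rw [← e] at g4
          have g5 := hcos v.im g1 g2
          have g6 : ‖w v‖ ≤ Real.exp (-A) := by
            rw [hwn, g3]
            apply Real.exp_le_exp.2
            simp only [sub_self, mul_zero, neg_zero, Real.exp_zero, one_mul]
            nlinarith
          calc ‖f v‖ * ‖w v‖ ≤ Real.exp A * Real.exp (-A) :=
                mul_le_mul g4 g6 (norm_nonneg _) (by positivity)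
            _ = 1 := by rw [← Real.exp_add]; simp
            _ ≤ _ := hE1
        · have e : v = ⟨X, v.im⟩ := Complex.ext g3 rfl
          have g4 := hr v.im g1 g2
          rw [← e] at g4
          have g5 := hw1 v g1 g2
          calc ‖f v‖ * ‖w v‖ ≤ Real.exp E * 1 := mul_le_mul g4 g5 (norm_nonneg _) (by positivity)
            _ = _ := mul_one _
    · apply subset_closure
      exact ⟨⟨h1, h2⟩, h3, h4⟩
  rw [norm_mul, hwn] at hmain
  have hcz : Real.cos (a * (z.im - y₀)) ≤ 1 := Real.cos_le_one _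
  have hex := Real.exp_pos (-(a * (z.re - x₁)))
  have h5 : Real.exp (-(2 * A * Real.exp (-(a * (z.re - x₁))))) ≤
      Real.exp (-(2 * A * (Real.exp (-(a * (z.re - x₁))) * Real.cos (a * (z.im - y₀))))) := by
    apply Real.exp_le_exp.2
    have h6 : Real.exp (-(a * (z.re - x₁))) * Real.cos (a * (z.im - y₀)) ≤
        Real.exp (-(a * (z.re - x₁))) := mul_le_of_le_one_right hex.le hcz
    nlinarith
  have h7 : ‖f z‖ * Real.exp (-(2 * A * Real.exp (-(a * (z.re - x₁))))) ≤ Real.exp E :=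
    (mul_le_mul_of_nonneg_left h5 (norm_nonneg _)).trans hmain
  rw [Real.exp_neg, ← div_eq_mul_inv, div_le_iff₀ (Real.exp_pos _), ← Real.exp_add] at h7
  exact h7

end Pool.Agent.L7h13.WL
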