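import Pool.Agent.L7h13.WL.Cor

/-!
# Large values on the critical line
-/

set_option autoImplicit false

open Complex Set Metric Polynomial

namespace Pool.Agent.L7h13.WL

open Pool.Agent.L7h13.SP H370

/-- large values on the critical line imply large values to the right of it, nearby -/
lemma near_right {κ : ℝ} (hκ : 0 < κ) (hκ1 : κ ≤ 1) : ∃ T₀ : ℝ, 1 ≤ T₀ ∧ ∀ T : ℝ, T₀ ≤ T →
    T ^ κ < ‖riemannZeta ⟨1 / 2, T⟩‖ →
    ∃ T₁ : ℝ, |T₁ - T| ≤ 4 ∧ T₁ ^ (κ / 4) < ‖riemannZeta ⟨1 / 2 + κ / 2, T₁⟩‖ := by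
  obtain ⟨C, hC1, hC⟩ := zgrow 3
  obtain ⟨K, hK, hr⟩ := Pool.Agent.Y757.LS.zeta_refl
  obtain ⟨T₁, hT1, ha1⟩ := absorb (C * 2 ^ (5:ℝ)) (ε := 1) one_pos
  obtain ⟨T₂, hT2, ha2⟩ := absorb (Real.exp K * 8 + 1) (ε := 3 * κ / 8) (by positivity)
  refine ⟨T₁ + T₂ + 10, by linarith, fun T hT hbig => ?_⟩
  by_contra hcon
  push Not at hcon
  have hT0 : 0 < T := by linarith
  set L := Real.log T with hL
  have hL0 : 0 ≤ L := Real.log_nonneg (by linarith)
  have hexp : ∀ p : ℝ, Real.exp (p * L) = T ^ p := fun p => by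
    rw [Real.rpow_def_of_pos hT0, mul_comm]
  have hpow : ∀ p q : ℝ, p ≤ q → T ^ p ≤ T ^ q := fun p q h =>
    Real.rpow_le_rpow_of_exponent_le (by linarith) h
  set s₀ : ℂ := ⟨1 / 2, T⟩ with hs₀
  set M : ℝ := 1 / (2 * κ) with hM
  have hM0 : 0 < M := by positivity
  set w : ℂ → ℂ := fun s => Complex.exp ((L : ℂ) * (((1 / 2 : ℝ) : ℂ) * (s - s₀) + (M : ℂ) * (s - s₀) ^ 2)) with hw
  have hwn : ∀ s : ℂ, ‖w s‖ = T ^ (1 / 2 * (s.re - 1 / 2) + M * ((s.re - 1 / 2) ^ 2 - (s.im - T) ^ 2)) := by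
    intro s
    simp only [hw]
    rw [Complex.norm_exp, ← hexp]
    congr 1
    rw [Complex.re_ofReal_mul]
    have e1 : (((1 / 2 : ℝ) : ℂ) * (s - s₀) + (M : ℂ) * (s - s₀) ^ 2).re =
        1 / 2 * (s.re - 1 / 2) + M * ((s.re - 1 / 2) ^ 2 - (s.im - T) ^ 2) := by
      rw [Complex.add_re, Complex.re_ofReal_mul, Complex.re_ofReal_mul, sq, Complex.mul_re]
      simp only [Complex.sub_re, Complex.sub_im, hs₀]
      ring
    rw [e1]
    ring
  have hwd : Differentiable ℂ w := by
    simp only [hw]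
    fun_prop
  set h : ℝ := κ / 2 with hh
  have hh0 : 0 < h := by positivity
  have hMh : M * h ^ 2 = κ / 8 := by rw [hM, hh]; field_simp; norm_num
  set D : ℝ := Real.exp K * 8 + 1 with hD
  have hD1 : 1 ≤ D := by
    have := Real.exp_pos K
    rw [hD]; linarith
  have h2k : (2:ℝ) ^ (3 * κ / 4) ≤ 8 := by
    calc (2:ℝ) ^ (3 * κ / 4) ≤ 2 ^ (3:ℝ) := Real.rpow_le_rpow_of_exponent_le (by norm_num) (by linarith)
      _ = 8 := by norm_num
  have h2k' : (2:ℝ) ^ (κ / 4) ≤ 8 := by
    calc (2:ℝ) ^ (κ / 4) ≤ 2 ^ (3:ℝ) := Real.rpow_le_rpow_of_exponent_le (by norm_num) (by linarith)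
      _ = 8 := by norm_num
  have hmain : ‖riemannZeta s₀ * w s₀‖ ≤ D * T ^ (5 * κ / 8) := by
    refine Complex.norm_le_of_forall_mem_frontier_norm_le (f := fun s => riemannZeta s * w s)
      (U := Ioo (1 / 2 - h) (1 / 2 + h) ×ℂ Ioo (T - 4) (T + 4)) ?_ ?_ ?_ ?_
    · exact (Metric.isBounded_Ioo _ _).reProdIm (Metric.isBounded_Ioo _ _)
    · apply DifferentiableOn.diffContOnCl
      rw [closure_reProdIm, closure_Ioo (by linarith), closure_Ioo (by linarith)]
      intro z hz
      obtain ⟨⟨g1, g2⟩, g3, g4⟩ := hz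
      exact ((zeta_diff (by linarith)).mul (hwd z)).differentiableWithinAt
    · intro v hv
      rw [frontier_reProdIm, closure_Ioo (by linarith), closure_Ioo (by linarith),
        frontier_Ioo (by linarith), frontier_Ioo (by linarith)] at hv
      rw [norm_mul, hwn]
      have hsq : ∀ x : ℝ, 1 / 2 - h ≤ x → x ≤ 1 / 2 + h → (x - 1 / 2) ^ 2 ≤ h ^ 2 := by
        intro x g1 g2
        apply sq_le_sq'
        · linarith
        · linarith
      rcases hv with hv | hv
      · -- horizontal sides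
        obtain ⟨⟨g1, g2⟩, g3⟩ := hv
        simp only [mem_preimage, mem_insert_iff, mem_singleton_iff] at g3
        have g4 : (v.im - T) ^ 2 = 16 := by
          rcases g3 with g3 | g3 <;> rw [g3] <;> ring
        have g5 : T - 4 ≤ v.im ∧ v.im ≤ T + 4 := by
          rcases g3 with g3 | g3 <;> rw [g3] <;> constructor <;> linarith
        have g6 := hC v (by linarith) (by linarith) (by linarith [g5.1])
        have g7 := hsq v.re g1 g2
        have g8 : 8 ≤ M * 16 := by
          rw [hM, div_mul_eq_mul_div, le_div_iff₀ (by positivity)]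
          linarith
        have g9 : 1 / 2 * (v.re - 1 / 2) + M * ((v.re - 1 / 2) ^ 2 - (v.im - T) ^ 2) ≤ -7 := by
          rw [g4]
          have : M * (v.re - 1 / 2) ^ 2 ≤ M * h ^ 2 := mul_le_mul_of_nonneg_left g7 hM0.le
          rw [hMh] at this
          have : M * ((v.re - 1 / 2) ^ 2 - 16) = M * (v.re - 1 / 2) ^ 2 - M * 16 := by ring
          linarith
        have g10 := hpow _ _ g9
        calc ‖riemannZeta v‖ * T ^ (1 / 2 * (v.re - 1 / 2) + M * ((v.re - 1 / 2) ^ 2 - (v.im - T) ^ 2))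
            ≤ (C * (2 * T) ^ (5:ℝ)) * T ^ (-7:ℝ) := by
              apply mul_le_mul _ g10 (by positivity) (by positivity)
              refine g6.trans ?_
              apply mul_le_mul_of_nonneg_left _ (by linarith)
              exact Real.rpow_le_rpow (by linarith [g5.1]) (by linarith [g5.2]) (by norm_num)
          _ = (C * 2 ^ (5:ℝ)) * (T ^ (5:ℝ) * T ^ (-7:ℝ)) := by
              rw [Real.mul_rpow (by norm_num) hT0.le]; ring
          _ ≤ T ^ (1:ℝ) * (T ^ (5:ℝ) * T ^ (-7:ℝ)) :=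
              mul_le_mul_of_nonneg_right (ha1 T (by linarith)) (by positivity)
          _ = T ^ (-1:ℝ) := by
              rw [← Real.rpow_add hT0, ← Real.rpow_add hT0]; norm_num
          _ ≤ T ^ (0:ℝ) := hpow _ _ (by norm_num)
          _ = 1 := Real.rpow_zero T
          _ ≤ D * T ^ (5 * κ / 8) := by
              have : 1 ≤ T ^ (5 * κ / 8) := Real.one_le_rpow (by linarith) (by positivity)
              nlinarith
      · -- vertical sides
        obtain ⟨g3, ⟨g1, g2⟩⟩ := hv
        simp only [mem_preimage, mem_insert_iff, mem_singleton_iff] at g3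
        have hv0 : 0 < v.im := by linarith
        have hz : ‖riemannZeta ⟨1 / 2 + κ / 2, v.im⟩‖ ≤ (2 * T) ^ (κ / 4) := by
          refine (hcon v.im (by rw [abs_le]; constructor <;> linarith)).trans ?_
          exact Real.rpow_le_rpow hv0.le (by linarith) (by positivity)
        have hy : 0 ≤ (v.im - T) ^ 2 := sq_nonneg _
        rcases g3 with g3 | g3
        · -- left
          have k1 := (hr h v.im hh0.le (by linarith) (by rw [abs_of_pos hv0]; linarith)).2
          rw [abs_of_pos hv0] at k1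
          have e1 : (1 / 2 - (h : ℂ) + v.im * I) = v := by
            apply Complex.ext
            · simp [g3]
            · simp
          have e2 : (1 / 2 + (h : ℂ) + v.im * I) = ⟨1 / 2 + κ / 2, v.im⟩ := by
            apply Complex.ext
            · simp [hh]
            · simp
          rw [e1, e2] at k1
          have k2 : v.im ^ h ≤ (2 * T) ^ h := Real.rpow_le_rpow hv0.le (by linarith) hh0.le
          have k3 : 1 / 2 * (v.re - 1 / 2) + M * ((v.re - 1 / 2) ^ 2 - (v.im - T) ^ 2) ≤ -(κ / 8) := by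
            rw [g3]
            have : M * ((1 / 2 - h - 1 / 2) ^ 2 - (v.im - T) ^ 2) = M * h ^ 2 - M * (v.im - T) ^ 2 := by
              ring
            rw [this, hMh]
            have : 0 ≤ M * (v.im - T) ^ 2 := by positivity
            rw [hh]
            linarith
          calc ‖riemannZeta v‖ * T ^ (1 / 2 * (v.re - 1 / 2) + M * ((v.re - 1 / 2) ^ 2 - (v.im - T) ^ 2))
              ≤ (Real.exp K * (2 * T) ^ h * (2 * T) ^ (κ / 4)) * T ^ (-(κ / 8)) := by
                apply mul_le_mul _ (hpow _ _ k3) (by positivity) (by positivity)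
                refine k1.trans ?_
                gcongr
            _ = (Real.exp K * (2:ℝ) ^ (3 * κ / 4)) * (T ^ (3 * κ / 4) * T ^ (-(κ / 8))) := by
                rw [mul_assoc (Real.exp K), ← Real.rpow_add (by positivity), Real.mul_rpow (by norm_num) hT0.le]
                have : h + κ / 4 = 3 * κ / 4 := by rw [hh]; ring
                rw [this]; ring
            _ = (Real.exp K * (2:ℝ) ^ (3 * κ / 4)) * T ^ (5 * κ / 8) := by
                rw [← Real.rpow_add hT0]; congr 2; ring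
            _ ≤ D * T ^ (5 * κ / 8) := by
                apply mul_le_mul_of_nonneg_right _ (by positivity)
                have := mul_le_mul_of_nonneg_left h2k (Real.exp_pos K).le
                rw [hD]; linarith
        · -- right
          have e1 : v = ⟨1 / 2 + κ / 2, v.im⟩ := Complex.ext g3 rfl
          rw [← e1] at hz
          have k3 : 1 / 2 * (v.re - 1 / 2) + M * ((v.re - 1 / 2) ^ 2 - (v.im - T) ^ 2) ≤ 3 * κ / 8 := by
            rw [g3]
            have : M * ((1 / 2 + h - 1 / 2) ^ 2 - (v.im - T) ^ 2) = M * h ^ 2 - M * (v.im - T) ^ 2 := by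
              ring
            rw [this, hMh]
            have : 0 ≤ M * (v.im - T) ^ 2 := by positivity
            rw [hh]
            linarith
          calc ‖riemannZeta v‖ * T ^ (1 / 2 * (v.re - 1 / 2) + M * ((v.re - 1 / 2) ^ 2 - (v.im - T) ^ 2))
              ≤ (2 * T) ^ (κ / 4) * T ^ (3 * κ / 8) := by
                apply mul_le_mul hz (hpow _ _ k3) (by positivity) (by positivity)
            _ = (2:ℝ) ^ (κ / 4) * (T ^ (κ / 4) * T ^ (3 * κ / 8)) := by
                rw [Real.mul_rpow (by norm_num) hT0.le]; ring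
            _ = (2:ℝ) ^ (κ / 4) * T ^ (5 * κ / 8) := by
                rw [← Real.rpow_add hT0]; congr 2; ring
            _ ≤ D * T ^ (5 * κ / 8) := by
                apply mul_le_mul_of_nonneg_right _ (by positivity)
                have : 1 ≤ Real.exp K := Real.one_le_exp hK.le
                rw [hD]; linarith
    · apply subset_closure
      exact ⟨⟨by simp only [hs₀]; linarith, by simp only [hs₀]; linarith⟩,
        by simp only [hs₀]; linarith, by simp only [hs₀]; linarith⟩
  rw [norm_mul, hwn] at hmain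
  have e0 : 1 / 2 * (s₀.re - 1 / 2) + M * ((s₀.re - 1 / 2) ^ 2 - (s₀.im - T) ^ 2) = 0 := by
    simp only [hs₀]; ring
  rw [e0, Real.rpow_zero, mul_one] at hmain
  have h3 : D * T ^ (5 * κ / 8) ≤ T ^ κ := by
    calc D * T ^ (5 * κ / 8) ≤ T ^ (3 * κ / 8) * T ^ (5 * κ / 8) :=
          mul_le_mul_of_nonneg_right (ha2 T (by linarith)) (by positivity)
      _ = T ^ κ := by rw [← Real.rpow_add hT0]; congr 1; ring
  linarith

lemma fr_one : Fr 1 0 (fun _ => 0) = riemannZeta := by
  funext s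
  unfold Fr Op DP
  simp

/-- barriers near large values on the critical line -/
theorem near_barrier {κ : ℝ} (hκ : 0 < κ) : ∃ δ : ℝ, 0 < δ ∧ ∀ η : ℝ, 0 < η → ∃ θ : ℝ, 0 < θ ∧
    ∃ T₀ : ℝ, ∀ T : ℝ, T₀ ≤ T → T ^ κ < ‖riemannZeta (1 / 2 + T * I)‖ → ∃ T₁ : ℝ, |T₁ - T| ≤ 5 ∧
      ∀ T' : ℝ, |T' - T₁| ≤ δ → ¬ FewB riemannZeta (1 / 2 + δ) T' η (θ * Real.log T) := by
  set k : ℝ := min κ 1 with hk
  have hk0 : 0 < k := lt_min hκ one_pos
  have hk1 : k ≤ 1 := min_le_right _ _
  have hk2 : k ≤ κ := min_le_left _ _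
  obtain ⟨T₂, hT2, hnear⟩ := near_right hk0 hk1
  obtain ⟨δb, hδb, HB⟩ := barrier' (P := 1) one_ne_zero 0 (fun _ => 0) (σ₀ := 1 / 2) (by norm_num)
    (by norm_num) (κ := k / 4) (by positivity)
  rw [fr_one] at HB
  set δ : ℝ := min (δb / 2) 1 with hδ
  have hδ0 : 0 < δ := lt_min (by positivity) one_pos
  have hδ1 : δ ≤ δb / 2 := min_le_left _ _
  have hδ2 : δ ≤ 1 := min_le_right _ _
  refine ⟨δ, hδ0, fun η hη => ?_⟩
  obtain ⟨θ, hθ, T₃, hT3, H⟩ := HB η hη
  refine ⟨θ / 2, by positivity, T₂ + T₃ + 20, fun T hT hbig => ?_⟩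
  have hT0 : 0 < T := by linarith
  have e1 : (1 / 2 + T * I : ℂ) = ⟨1 / 2, T⟩ := by
    apply Complex.ext <;> simp
  rw [e1] at hbig
  obtain ⟨T₁, a1, a2⟩ := hnear T (by linarith) (lt_of_le_of_lt
    (Real.rpow_le_rpow_of_exponent_le (by linarith) hk2) hbig)
  have a1' := abs_le.1 a1
  have e2 : (((1 / 2 + k / 2 : ℝ) : ℂ) + T₁ * I) = ⟨1 / 2 + k / 2, T₁⟩ := by
    apply Complex.ext <;> simp
  have hlog : θ / 2 * Real.log T ≤ θ * Real.log T₁ := by
    have h3 : Real.log T ≤ 2 * Real.log T₁ := by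
      have : (2:ℝ) * Real.log T₁ = Real.log (T₁ ^ 2) := by rw [Real.log_pow]; norm_num
      rw [this]
      apply Real.log_le_log hT0
      nlinarith
    nlinarith
  have key : ∀ T' : ℝ, ¬ FewB riemannZeta (1 / 2 + δb) T' η (θ * Real.log T₁) →
      ¬ FewB riemannZeta (1 / 2 + δ) T' η (θ / 2 * Real.log T) := by
    intro T' h1 h2
    exact h1 (h2.mono (by linarith) hlog)
  rcases H (1 / 2 + k / 2) T₁ (by linarith) (by linarith) (by rw [e2]; exact a2) with h | h
  · refine ⟨T₁ - δ, by rw [abs_le]; constructor <;> linarith, fun T' hT' => ?_⟩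
    have := abs_le.1 hT'
    exact key T' (h T' (by linarith) (by linarith))
  · refine ⟨T₁ + δ, by rw [abs_le]; constructor <;> linarith, fun T' hT' => ?_⟩
    have := abs_le.1 hT'
    exact key T' (h T' (by linarith) (by linarith))

end Pool.Agent.L7h13.WL
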